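import Pool.Agent.H94.CB.M15
import Pool.Agent.H94.CB.M58

/-!
# Entire curves of order two in projective spaces
-/

set_option autoImplicit false

namespace Pool.Agent.H13.OT

open Filter Topology Metric
open Pool.Agent.H17BP (Pr HolP)
open Pool.Agent.H17 (PN HolomorphicInto EntFun exists_global_lift ZariskiClosedIn)
open Pool.Agent.H36.BP (OrdTwo)
open Pool.Agent.H36.BPL (Brody2)

variable {N : ℕ}

/-- The entire curve `f : ℂ → ℙ^N` has `T_f(r) = O(r²)`, so that it has order at most two. Here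
`T_f(r)` is the characteristic function, that is, the mean value of `log ‖F‖` over the circle of radius `r` minus
`log ‖F 0‖`, where `F : ℂ → ℂ^(N+1)` is an entire function without zeros which represents `f`. -/
def OrderTwo (f : ℂ → PN N) : Prop :=
  ∃ (F : ℂ → Fin (N + 1) → ℂ) (A : ℝ), Differentiable ℂ F ∧ (∀ z, ∃ h : F z ≠ 0, f z = Projectivization.mk ℂ (F z) h) ∧
    ∀ r : ℝ, 0 < r → Real.circleAverage (fun z => Real.log ‖F z‖) 0 r ≤ A * (1 + r ^ 2)

/-- There is a proper Zariski closed subset of `X` which contains the image of every nonconstant holomorphic map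
`f : ℂ → X` with `T_f(r) = O(r²)`. -/
def PseudoBrodyOrderTwo (X : Set (PN N)) : Prop :=
  ∃ Ξ : Set (PN N), ZariskiClosedIn X Ξ ∧ Ξ ≠ X ∧
    ∀ f : ℂ → PN N, HolomorphicInto f Set.univ → OrderTwo f → (∀ z, f z ∈ X) → (∃ z w, f z ≠ f w) → ∀ z, f z ∈ Ξ

theorem mk_eq_of_pr {x y : Fin (N + 1) → ℂ} (h : Pr x y) (hx : x ≠ 0) (hy : y ≠ 0) :
    Projectivization.mk ℂ x hx = Projectivization.mk ℂ y hy := by
  obtain ⟨c, hc, h⟩ := h
  rw [Projectivization.mk_eq_mk_iff']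
  exact ⟨c, h.symm⟩

theorem pr_of_mk_eq {x y : Fin (N + 1) → ℂ} (hx : x ≠ 0) (hy : y ≠ 0)
    (h : Projectivization.mk ℂ x hx = Projectivization.mk ℂ y hy) : Pr x y := by
  rw [Projectivization.mk_eq_mk_iff'] at h
  obtain ⟨a, ha⟩ := h
  refine ⟨a, ?_, ha.symm⟩
  rintro rfl
  rw [zero_smul] at ha
  exact hx ha.symm

/-- the map into the projective space of a map into the cone is holomorphic -/
theorem holomorphicInto_mk {f : ℂ → Fin (N + 1) → ℂ} (hf0 : ∀ z, f z ≠ 0) (hf : ∀ z, HolP f z) :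
    HolomorphicInto (fun z => Projectivization.mk ℂ (f z) (hf0 z)) Set.univ := by
  intro z₀ _
  obtain ⟨G, hG, hG0, he⟩ := hf z₀
  refine ⟨G, hG, ?_⟩
  filter_upwards [he, hG.continuousAt.eventually_ne hG0] with z h1 h2
  exact ⟨h2, mk_eq_of_pr h1 (hf0 z) h2⟩

/-- the definition with bounded lifts on discs implies the definition with the characteristic function -/
theorem OrdTwo.orderTwo {f : ℂ → Fin (N + 1) → ℂ} (hf0 : ∀ z, f z ≠ 0) (hf : ∀ z, HolP f z) (h : OrdTwo f) :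
    OrderTwo (fun z => Projectivization.mk ℂ (f z) (hf0 z)) := by
  obtain ⟨x, hx⟩ := exists_global_lift (holomorphicInto_mk hf0 hf)
  set F₀ : ℂ → Fin (N + 1) → ℂ := fun z j => (x j : ℂ → ℂ) z with hF₀
  have hdiff : Differentiable ℂ F₀ := by
    rw [differentiable_pi]
    intro j
    exact (x j).2
  have hlift : ∀ z, F₀ z ≠ 0 ∧ Pr (f z) (F₀ z) := by
    intro z
    obtain ⟨h1, h2⟩ := hx z
    exact ⟨h1, pr_of_mk_eq (hf0 z) h1 h2⟩
  obtain ⟨C0, hC0⟩ := h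
  refine ⟨F₀, |Real.log ‖F₀ 0‖| + 3 * |C0|, hdiff, hx, fun r hr => ?_⟩
  obtain ⟨F, hF, hF1, hF0, hFf⟩ := hC0 (r + 1) (by linarith)
  have hF0' : F 0 ≠ 0 := by
    intro h0
    rw [h0, norm_zero] at hF0
    exact absurd hF0 (not_le.2 (Real.exp_pos _))
  have h1 := average_le hr (lt_add_one r) hF hF1 hF0' hFf hdiff.differentiableOn fun z _ => hlift z
  have h2 : -(C0 * (1 + (r + 1) ^ 2)) ≤ Real.log ‖F 0‖ := by
    rw [Real.le_log_iff_exp_le (norm_pos_iff.2 hF0')]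
    exact hF0
  have h3 : C0 * (1 + (r + 1) ^ 2) ≤ 3 * |C0| * (1 + r ^ 2) := by
    have h4 : C0 ≤ |C0| := le_abs_self _
    have h5 : 0 ≤ |C0| := abs_nonneg _
    have h6 : 1 + (r + 1) ^ 2 ≤ 3 * (1 + r ^ 2) := by nlinarith [sq_nonneg (r - 1)]
    calc C0 * (1 + (r + 1) ^ 2) ≤ |C0| * (1 + (r + 1) ^ 2) := mul_le_mul_of_nonneg_right h4 (by positivity)
      _ ≤ |C0| * (3 * (1 + r ^ 2)) := mul_le_mul_of_nonneg_left h6 h5
      _ = _ := by ring
  have h7 : Real.log ‖F₀ 0‖ ≤ |Real.log ‖F₀ 0‖| * (1 + r ^ 2) := by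
    have h8 : Real.log ‖F₀ 0‖ ≤ |Real.log ‖F₀ 0‖| := le_abs_self _
    have h9 : 0 ≤ |Real.log ‖F₀ 0‖| := abs_nonneg _
    nlinarith [sq_nonneg r]
  have h10 : (|Real.log ‖F₀ 0‖| + 3 * |C0|) * (1 + r ^ 2) = |Real.log ‖F₀ 0‖| * (1 + r ^ 2) + 3 * |C0| * (1 + r ^ 2) := by
    ring
  rw [h10]
  linarith

/-- The hypothesis on maps into the projective space gives the hypothesis on maps into the cone: `U` is a set of points in the
projective space and `K` a set of representatives of points of `U`; the curves of order two in `U` are in `Ξ` and the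
representatives in `K` of points of `Ξ` are in `B`. -/
theorem brody2_of_curves {U Ξ : Set (PN N)} {K B : Set (Fin (N + 1) → ℂ)} (h0 : ∀ x ∈ K, x ≠ 0)
    (hU : ∀ (x : Fin (N + 1) → ℂ) (hx : x ≠ 0), x ∈ K → Projectivization.mk ℂ x hx ∈ U)
    (hB : ∀ (x : Fin (N + 1) → ℂ) (hx : x ≠ 0), x ∈ K → Projectivization.mk ℂ x hx ∈ Ξ → x ∈ B)
    (h : ∀ f : ℂ → PN N, HolomorphicInto f Set.univ → OrderTwo f → (∀ z, f z ∈ U) → (∃ z w, f z ≠ f w) → ∀ z, f z ∈ Ξ) :
    Brody2 K B := by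
  rintro f hf hfK h2 ⟨z₁, hz₁⟩ z w
  by_contra hzw
  have hf0 : ∀ z, f z ≠ 0 := fun z => h0 _ (hfK z)
  apply hz₁
  refine hB (f z₁) (hf0 z₁) (hfK z₁) (h (fun z => Projectivization.mk ℂ (f z) (hf0 z)) (holomorphicInto_mk hf0 hf)
    (OrdTwo.orderTwo hf0 hf h2) (fun z => hU _ (hf0 z) (hfK z)) ⟨z, w, fun he => hzw (pr_of_mk_eq _ _ he)⟩ z₁)

end Pool.Agent.H13.OT
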